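import Mathlib
import Pool.Agent.H84.FanQ

namespace Pool.Agent.Results.MP_0958cc_gt.No

open Pool.Agent.H84.Fan

theorem result : ∃ (X : Set unitInterval) (F : Type) (_ : MetricSpace F) (t : F),
    IsFan t ∧ Smooth t ∧ EPG t X ∧ ¬ EndHom F :=
  ⟨X3, KS, inferInstance, PK.t, PK.isFan, PK.smooth, epgK, notHom⟩

end Pool.Agent.Results.MP_0958cc_gt.No
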